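import Pool.Agent.H24.KN.Wx
import Pool.Agent.H24.RG.Glb
import Pool.Agent.H20.RT.Bgd
import Pool.Agent.H20.TP.Near
import Pool.Agent.H32.TZ.Eng

/-!
# [H87 KN N2] K3 fibrations (MP_e49dc9_ag, think 1279 (2)): the isotropic case

`F` integral and nef, `F . F = 0`, `D` in the tangent cone of `F`, `T(F,D,D) = 0`, `T(F,D,A) > 0` (`FD`), `D` rational modulo the kernel of the form
`T(F,.,.)`, `l(F) > 0`, and the multiplicity bound (MI).  Then `D + K F` is nef for one `K`.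

* `EE`: the classes `v` such that for all `n` there is `U` within `R` of `n v` and `s ≤ K n + R` with a section of `U + s F`.  A convex cone.
* `ee_int`: an integral class `W` with `T(F,W,W) = 0`, `T(F,W,A) > 0` is in `EE`.
* `ee_D`: `D` is in `EE`.
* `ee_nef`: `D` in `EE` and in the tangent cone of `F`: `D + K F` is nef for one `K`.
* `n2`.
-/

set_option autoImplicit false

namespace Pool.Agent.H87.KN

open Pool.Agent.H54.RV Pool.Agent.H83.TU Pool.Agent.H83.TK Pool.Agent.H20.TD Pool.Agent.H20.TP Pool.Agent.H20.RT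
open Pool.Agent.H24.VP (RR chS chi)
open Pool.Agent.H24.KN (FD)

variable {k K : Type} [Field k] [Field K] [Algebra k K] {X : Mod k K} {r : ℕ}
  {ν : Cart X →* Multiplicative (Fin r → ℤ)} {T : Cart X → Cart X → Cart X → ℝ} {l : Cart X → ℝ} {c : ℝ} {TR : Tri3 r}
  {A F : Cart X} {D : Fin r → ℝ}

/-- `n v + s F` has sections up to a bounded error, `s ≤ K n + R` -/
def EE (ν : Cart X →* Multiplicative (Fin r → ℤ)) (F : Cart X) (v : Fin r → ℝ) : Prop :=
  ∃ K₀ R : ℝ, 0 ≤ K₀ ∧ 0 ≤ R ∧ ∀ n : ℕ, ∃ (U : Cart X) (s : ℤ), 0 < h0 (U * F ^ s) 1 ∧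
    ‖cR ν U - (n : ℝ) • v‖ ≤ R ∧ (s : ℝ) ≤ K₀ * n + R

theorem mul_pos' [CharZero k] (h : Hyp X) {U V : Cart X} (hU : 0 < h0 U 1) (hV : 0 < h0 V 1) : 0 < h0 (U * V) 1 := by
  obtain ⟨A, hA⟩ := h.amp
  exact hU.trans_le (Pool.Agent.H32.TZ.h0_mul_le (fun W => Pool.Agent.H24.TK.fd h.var h.gen hA _) hV)

theorem pow_pos' [CharZero k] (h : Hyp X) {U : Cart X} (hU : 0 < h0 U 1) : ∀ n : ℕ, 0 < h0 (U ^ (n + 1)) 1
  | 0 => by rw [zero_add, pow_one]; exact hU
  | n + 1 => by rw [pow_succ]; exact mul_pos' h (pow_pos' h hU n) hU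

/-- large powers of ample divisors have sections -/
theorem amp_sec [CharZero k] [T0Space X.P] (h : Hyp X) (hr : RR T l c) (hA : Ample A) :
    ∃ n₀ : ℕ, ∀ n ≥ n₀, 0 < h0 (A ^ n) 1 := by
  have hpos : 0 < T A A A := Pool.Agent.H24.VP.pos_amp h hr hA hA hA
  have hl : ∀ n : ℕ, l (A ^ n) = n * l A := by
    intro n
    induction n with
    | zero => rw [pow_zero, hr.l_one]; simp
    | succ n ih => rw [pow_succ, hr.ladd, ih]; push_cast; ring
  obtain ⟨n₁, hn₁⟩ := hr.ev 1 A hA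
  obtain ⟨n₂, hn₂⟩ := exists_nat_gt (6 * (|l A| + |c|) / T A A A)
  rw [div_lt_iff₀ hpos] at hn₂
  refine ⟨n₁ + n₂ + 1, fun n hn => ?_⟩
  have h1 := hn₁ n (by omega)
  rw [one_mul] at h1
  unfold chi at h1
  rw [hr.tri.pow, hr.tri.pow2, hr.tri.pow3, hl] at h1
  have h2 : (n₂ : ℝ) ≤ n := by exact_mod_cast (show n₂ ≤ n by omega)
  have h3 : (1 : ℝ) ≤ n := by exact_mod_cast (show 1 ≤ n by omega)
  have h4 : 6 * (|l A| + |c|) < n * T A A A := by nlinarith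
  have h5 : (n : ℝ) * (|l A| + |c|) * 6 < n * (n * T A A A) := by nlinarith
  have h6 : (n : ℝ) * (n * T A A A) ≤ n * (n * (n * T A A A)) := by
    have h7 : 0 ≤ (n : ℝ) * (n * T A A A) := by positivity
    nlinarith
  have h7 := neg_abs_le (l A)
  have h8 := neg_abs_le c
  have h9 : -(n * |l A|) ≤ n * l A := by nlinarith
  have h10 := abs_nonneg c
  have h11 : |c| ≤ n * |c| := by nlinarith
  have h12 : (0 : ℝ) < h0 (A ^ n) 1 := by
    rw [h1]
    nlinarith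
  exact_mod_cast h12

theorem ee_add [CharZero k] (h : Hyp X) {v w : Fin r → ℝ} (hv : EE ν F v) (hw : EE ν F w) : EE ν F (v + w) := by
  obtain ⟨K₁, R₁, a1, a2, h1⟩ := hv
  obtain ⟨K₂, R₂, b1, b2, h2⟩ := hw
  refine ⟨K₁ + K₂, R₁ + R₂, by positivity, by positivity, fun n => ?_⟩
  obtain ⟨U, s, c1, c2, c3⟩ := h1 n
  obtain ⟨V, t, d1, d2, d3⟩ := h2 n
  refine ⟨U * V, s + t, ?_, ?_, ?_⟩
  · have e : U * V * F ^ (s + t) = U * F ^ s * (V * F ^ t) := by
      rw [zpow_add]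
      exact mul_mul_mul_comm _ _ _ _
    rw [e]
    exact mul_pos' h c1 d1
  · have e : cR ν (U * V) - (n : ℝ) • (v + w) = (cR ν U - (n : ℝ) • v) + (cR ν V - (n : ℝ) • w) := by
      rw [cR_mul, smul_add]
      abel
    rw [e]
    exact (norm_add_le _ _).trans (add_le_add c2 d2)
  · push_cast
    nlinarith

theorem ee_smul {v : Fin r → ℝ} (hv : EE ν F v) {a : ℝ} (ha : 0 ≤ a) : EE ν F (a • v) := by
  obtain ⟨K₁, R₁, a1, a2, h1⟩ := hv
  refine ⟨K₁ * a, R₁ + ‖v‖, by positivity, by positivity, fun n => ?_⟩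
  obtain ⟨U, s, c1, c2, c3⟩ := h1 ⌊a * n⌋₊
  have hn : (0 : ℝ) ≤ a * n := by positivity
  have e1 := Nat.floor_le hn
  have e2 := Nat.lt_floor_add_one (a * n)
  refine ⟨U, s, c1, ?_, ?_⟩
  · have e : cR ν U - (n : ℝ) • a • v = (cR ν U - (⌊a * n⌋₊ : ℝ) • v) + ((⌊a * n⌋₊ : ℝ) - a * n) • v := by
      rw [sub_smul, smul_smul, mul_comm (n : ℝ) a]
      abel
    rw [e]
    refine (norm_add_le _ _).trans (add_le_add c2 ?_)
    rw [norm_smul, Real.norm_eq_abs]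
    refine mul_le_of_le_one_left (norm_nonneg _) ?_
    rw [abs_le]
    constructor <;> linarith
  · have := norm_nonneg v
    have e3 : K₁ * (⌊a * n⌋₊ : ℝ) ≤ K₁ * (a * n) := mul_le_mul_of_nonneg_left e1 a1
    linarith

/-- **integral isotropic classes are effective up to multiples of `F`** -/
theorem ee_int [CharZero k] [T0Space X.P] (h : Hyp X) (hr : RR T l c) (hA : Ample A)
    (hN : ∀ B : Cart X, Ample B → Ample (B * F)) (hNN : ∀ U, T F F U = 0) (hNA : 0 < T F A A) (hl : 0 < l F)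
    {W : Cart X} (h1 : T F W W = 0) (h2 : 0 < T F W A) : EE ν F (cR ν W) := by
  obtain ⟨j₀, hj₀⟩ := Pool.Agent.H24.RG.glb' h hr hA hN hNN hNA h2
  obtain ⟨C, n₀, hC⟩ := hj₀ (j₀ + 1) (Nat.le_succ _)
  obtain ⟨t, ht⟩ : ∃ t : ℕ, 0 < h0 (W ^ (j₀ + 1) * F ^ t) 1 := by
    obtain ⟨N, hN⟩ := exists_nat_gt (C / l F)
    rw [div_lt_iff₀ hl] at hN
    refine ⟨max N n₀, ?_⟩
    have h4 := hC (max N n₀) (le_max_right _ _)
    rw [h1] at h4
    have h5 : (N : ℝ) ≤ ((max N n₀ : ℕ) : ℝ) := by exact_mod_cast le_max_left _ _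
    have h6 : (0 : ℝ) < h0 (W ^ (j₀ + 1) * F ^ max N n₀) 1 := by nlinarith
    exact_mod_cast h6
  obtain ⟨j, hj⟩ : ∃ j, j = j₀ + 1 := ⟨_, rfl⟩
  rw [← hj] at ht
  have hj1 : 0 < j := by omega
  refine ⟨t, t + j * ‖cR ν W‖, by positivity, by positivity, fun n => ?_⟩
  obtain ⟨q, hq⟩ : ∃ q, q = n / j := ⟨_, rfl⟩
  have hq1 : j * q ≤ n := by rw [hq]; exact Nat.mul_div_le n j
  have hq2 : n < j * (q + 1) := by rw [hq]; exact Nat.lt_mul_div_succ n hj1
  have hqn : q ≤ n := by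
    refine le_trans ?_ hq1
    exact Nat.le_mul_of_pos_left q hj1
  have hq3 : (n : ℝ) ≤ j * (q + 1) := by exact_mod_cast hq2.le
  have hq4 : (j : ℝ) * q ≤ n := by exact_mod_cast hq1
  refine ⟨(W ^ j) ^ (q + 1), ((t * (q + 1) : ℕ) : ℤ), ?_, ?_, ?_⟩
  · rw [zpow_natCast, pow_mul, ← mul_pow]
    exact pow_pos' h ht q
  · have e : cR ν ((W ^ j) ^ (q + 1)) - (n : ℝ) • cR ν W = ((j : ℝ) * (q + 1) - n) • cR ν W := by
      rw [Pool.Agent.H41.RA.cR_pow, Pool.Agent.H41.RA.cR_pow, smul_smul, sub_smul]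
      congr 2
      push_cast
      ring
    rw [e, norm_smul, Real.norm_eq_abs]
    have h5 : |(j : ℝ) * (q + 1) - n| ≤ j := by
      rw [abs_le]
      constructor <;> nlinarith
    have h6 := mul_le_mul_of_nonneg_right h5 (norm_nonneg (cR ν W))
    have h7 : (0 : ℝ) ≤ t := Nat.cast_nonneg _
    linarith
  · have h7 : (0 : ℝ) ≤ t := Nat.cast_nonneg _
    have h8 : (q : ℝ) ≤ n := by exact_mod_cast hqn
    have h9 : (0 : ℝ) ≤ j * ‖cR ν W‖ := by positivity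
    push_cast
    nlinarith

/-- `D` is effective up to multiples of `F` -/
theorem ee_D [CharZero k] [IsAlgClosed k] [T0Space X.P] (h : Hyp X) (hr : RR T l c) (hν : NumR ν)
    (hT : ∀ U V W, TR (cR ν U) (cR ν V) (cR ν W) = T U V W) (d : FD ν TR A F D) (hl : 0 < l F)
    (hrat : ∃ (W : Cart X) (s : ℝ), ∀ v, TR (cR ν F) D v = s * TR (cR ν F) (cR ν W) v) : EE ν F D := by
  have s12 := tr_s12 hr hν hT
  have s23 := tr_s23 hr hν hT
  have hN : ∀ B : Cart X, Ample B → Ample (B * F) :=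
    Pool.Agent.H39.TZ.nf_of_cl h.var hν (by rw [cl_eq h.var hν]; exact d.nef)
  have hNN : ∀ U, T F F U = 0 := fun U => by rw [← hT, d.sq, LinearMap.zero_apply]
  have hNA : 0 < T F A A := by rw [← hT]; exact d.pos
  have hint : ∀ W : Cart X, T F W W = 0 → 0 < T F W A → EE ν F (cR ν W) := fun W h1 h2 =>
    ee_int h hr d.amp hN hNN hNA hl h1 h2
  -- the sign of `s`
  obtain ⟨W, s, hs, hW⟩ : ∃ (W : Cart X) (s : ℝ), 0 < s ∧ ∀ v, TR (cR ν F) D v = s * TR (cR ν F) (cR ν W) v := by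
    obtain ⟨W, s, hW⟩ := hrat
    rcases lt_trichotomy s 0 with h1 | h1 | h1
    · refine ⟨W⁻¹, -s, by linarith, fun v => ?_⟩
      rw [hW, Pool.Agent.H41.RA.cR_inv, map_neg, LinearMap.neg_apply]
      ring
    · have h2 := hW (cR ν A)
      rw [h1, zero_mul] at h2
      exact absurd h2 d.da.ne'
    · exact ⟨W, s, h1, hW⟩
  have hWA : 0 < TR (cR ν F) (cR ν W) (cR ν A) := by
    have h1 := d.da
    rw [hW] at h1
    exact pos_of_mul_pos_right h1 hs.le |>.trans_le le_rfl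
  have hWW : TR (cR ν F) (cR ν W) (cR ν W) = 0 := by
    have h1 := d.dd
    rw [hW, s23, hW] at h1
    have h2 : s * (s * TR (cR ν F) (cR ν W) (cR ν W)) = 0 := h1
    rcases mul_eq_zero.1 h2 with h3 | h3
    · exact absurd h3 hs.ne'
    · rcases mul_eq_zero.1 h3 with h4 | h4
      · exact absurd h4 hs.ne'
      · exact h4
  -- the kernel part
  obtain ⟨v, hv⟩ : ∃ v, v = D - s • cR ν W := ⟨_, rfl⟩
  have hv1 : ∀ U : Cart X, TR v (cR ν F) (cR ν U) = 0 := by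
    intro U
    rw [s12, hv]
    simp only [map_sub, map_smul, LinearMap.sub_apply, LinearMap.smul_apply, smul_eq_mul]
    rw [hW, sub_self]
  obtain ⟨cc, dd, hdd, hsum⟩ := vp_sum v (self_vp v)
  choose κ hκ using fun i => ci_surj hν (dd i)
  have hκ' : ∀ i, rv (dd i) = cR ν (κ i) := fun i => by
    change _ = rv (ci ν (κ i))
    rw [hκ]
  have hker : ∀ i, TR (cR ν F) (cR ν (κ i)) = 0 := by
    intro i
    refine ext_uniq hν fun U => ?_
    rw [LinearMap.zero_apply, s12]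
    refine vp_tri hr hν hT h.amp (hv1 U) ?_
    rw [← hκ']
    exact hdd i
  -- the lines
  have hline : ∀ (s' : ℝ), 0 < s' → ∀ (a : ℝ) (Z : Cart X), TR (cR ν F) (cR ν Z) = 0 →
      EE ν F (s' • cR ν W + a • cR ν Z) := by
    have key : ∀ (s' : ℝ), 0 < s' → ∀ (a : ℝ), 0 ≤ a → ∀ (Z : Cart X), TR (cR ν F) (cR ν Z) = 0 →
        EE ν F (s' • cR ν W + a • cR ν Z) := by
      intro s' hs' a ha Z hZ
      obtain ⟨m, hm⟩ := exists_nat_gt (a / s')
      rw [div_lt_iff₀ hs'] at hm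
      have hm0 : (0 : ℝ) < m := by
        by_contra hcon
        push Not at hcon
        nlinarith
      have e1 : cR ν (W * Z ^ m) = cR ν W + (m : ℝ) • cR ν Z := by rw [cR_mul, Pool.Agent.H41.RA.cR_pow]
      have e2 : ∀ y, TR (cR ν F) (cR ν (W * Z ^ m)) y = TR (cR ν F) (cR ν W) y := by
        intro y
        rw [e1]
        simp only [map_add, map_smul, LinearMap.add_apply, LinearMap.smul_apply, smul_eq_mul, hZ,
          LinearMap.zero_apply]
        ring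
      have h3 : EE ν F (cR ν (W * Z ^ m)) := hint _ (by rw [← hT, e2, s23, e2, hWW]) (by rw [← hT, e2]; exact hWA)
      have h4 := ee_add h (ee_smul (hint W (by rw [← hT, hWW]) (by rw [← hT]; exact hWA)) (a := s' - a / m) (by
        rw [sub_nonneg, div_le_iff₀ hm0]
        linarith)) (ee_smul h3 (a := a / m) (by positivity))
      have e3 : (s' - a / m) • cR ν W + (a / m) • cR ν (W * Z ^ m) = s' • cR ν W + a • cR ν Z := by
        rw [e1, smul_add, smul_smul, div_mul_cancel₀ _ hm0.ne', sub_smul]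
        abel
      rw [e3] at h4
      exact h4
    intro s' hs' a Z hZ
    rcases le_total 0 a with h1 | h1
    · exact key s' hs' a h1 Z hZ
    · have h2 := key s' hs' (-a) (by linarith) Z⁻¹ (by rw [Pool.Agent.H41.RA.cR_inv, map_neg, hZ, neg_zero])
      rw [Pool.Agent.H41.RA.cR_inv, smul_neg, neg_smul, neg_neg] at h2
      exact h2
  -- the sum
  have hr0 : 0 < r := by
    rcases Nat.eq_zero_or_pos r with h1 | h1
    · subst h1
      have h2 := d.da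
      rw [Subsingleton.elim D 0, map_zero, LinearMap.zero_apply] at h2
      exact absurd h2 (lt_irrefl _)
    · exact h1
  have hr1 : (0 : ℝ) < r := by exact_mod_cast hr0
  have : NeZero r := ⟨hr0.ne'⟩
  have hD : D = ∑ i : Fin r, ((s / r) • cR ν W + cc i • cR ν (κ i)) := by
    rw [Finset.sum_add_distrib, Finset.sum_const, Finset.card_univ, Fintype.card_fin, ← Nat.cast_smul_eq_nsmul ℝ,
      smul_smul, mul_div_cancel₀ _ hr1.ne']
    have h1 : ∑ i, cc i • cR ν (κ i) = v := by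
      rw [hsum]
      exact Finset.sum_congr rfl fun i _ => by rw [hκ']
    rw [h1, hv]
    abel
  rw [hD]
  refine Finset.sum_induction_nonempty _ (EE ν F) (fun a b => ee_add h) ⟨0, Finset.mem_univ _⟩ fun i _ => ?_
  exact hline _ (by positivity) _ _ (hker i)

/-- **`D` is effective up to multiples of `F` and in the tangent cone of `F`** -/
theorem ee_nef [CharZero k] [IsAlgClosed k] [T0Space X.P] (h : Hyp X) (hr : RR T l c) (hν : NumR ν)
    (hT : ∀ U V W, TR (cR ν U) (cR ν V) (cR ν W) = T U V W) (hA : Ample A) (hF : cR ν F ∈ closure (CC ν))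
    (htan : ∀ e : ℝ, 0 < e → ∃ t : ℝ, D + e • cR ν A + t • cR ν F ∈ closure (CC ν))
    (hMI : ∃ M : ℝ, 0 ≤ M ∧ ∀ U : Cart X, (∃ t₀ : ℝ, cR ν U + t₀ • cR ν F ∈ closure (CC ν)) → ∀ s : ℤ,
      0 < h0 (U * F ^ s) 1 → cR ν U + ((s : ℝ) + M * T A U F) • cR ν F ∈ closure (CC ν))
    (hD : EE ν F D) : ∃ K₀ : ℝ, D + K₀ • cR ν F ∈ closure (CC ν) := by
  obtain ⟨M, hM, hMI⟩ := hMI
  obtain ⟨K₁, R, hK₁, hR, hE⟩ := hD
  obtain ⟨a, ha⟩ : ∃ a, a = cR ν A := ⟨_, rfl⟩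
  obtain ⟨f, hf⟩ : ∃ f, f = cR ν F := ⟨_, rfl⟩
  obtain ⟨C3, hC3, h3⟩ := tri_bd TR
  -- a multiple of `A`
  obtain ⟨R', hR'⟩ : ∃ R', R' = R + ‖a‖ := ⟨_, rfl⟩
  have hR0 : 0 ≤ R' := by rw [hR']; positivity
  obtain ⟨m, hm1, hm2⟩ : ∃ m : ℕ, 0 < h0 (A ^ m) 1 ∧ ∀ v : Fin r → ℝ, ‖v‖ ≤ R' → (m : ℝ) • a + v ∈ closure (CC ν) := by
    obtain ⟨b, hb, hball⟩ := cc_ball h.var hν hA
    obtain ⟨n₀, hn₀⟩ := amp_sec h hr hA
    obtain ⟨n₁, hn₁⟩ := exists_nat_gt ((R' + 1) * b)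
    refine ⟨n₀ + n₁, hn₀ _ (Nat.le_add_right _ _), fun v hv => ?_⟩
    have h1 : (R' + 1) * b ≤ ((n₀ + n₁ : ℕ) : ℝ) := by
      push_cast
      have := Nat.cast_nonneg (α := ℝ) n₀
      linarith
    have h2 := hball (-(1 / (R' + 1)) • v) (by
      rw [norm_smul, norm_neg, Real.norm_eq_abs, abs_of_pos (by positivity), one_div_mul_eq_div, div_le_one (by positivity)]
      linarith)
    have h3 := cc_smul (c := R' + 1) (by positivity) h2
    have e1 : (R' + 1) • (b • cR ν A - -(1 / (R' + 1)) • v) = ((R' + 1) * b) • a + v := by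
      rw [ha, neg_smul, sub_neg_eq_add, smul_add, smul_smul, smul_smul, mul_one_div_cancel (by positivity), one_smul]
    rw [e1] at h3
    have h4 := Pool.Agent.H24.KN.cl_addN h.var hν (subset_closure h3)
      (cl_smul (sub_nonneg.2 h1) (subset_closure (cc_amp h.var hν hA)))
    have e2 : ((R' + 1) * b) • a + v + (((n₀ + n₁ : ℕ) : ℝ) - (R' + 1) * b) • rv (ci ν A) = ((n₀ + n₁ : ℕ) : ℝ) • a + v := by
      rw [sub_smul, ha]
      change _ + _ + (_ • cR ν A - _ • cR ν A) = _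
      abel
    rw [e2] at h4
    exact h4
  -- the classes
  obtain ⟨C₁, hC₁⟩ : ∃ C₁, C₁ = K₁ + M * (C3 * ‖a‖ * ‖D‖ * ‖f‖) := ⟨_, rfl⟩
  obtain ⟨C₂, hC₂⟩ : ∃ C₂, C₂ = R + M * (C3 * ‖a‖ * (R + m * ‖a‖) * ‖f‖) := ⟨_, rfl⟩
  have hC10 : 0 ≤ C₁ := by rw [hC₁]; positivity
  have hC20 : 0 ≤ C₂ := by rw [hC₂]; positivity
  have key : ∀ n : ℕ, 0 < n → ∃ x ∈ closure (CC ν), ‖D + (C₁ + C₂) • f - x‖ ≤ (R + m * ‖a‖) / n := by
    intro n hn
    have hn0 : (0 : ℝ) < n := by exact_mod_cast hn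
    obtain ⟨U, s, h1, h2, h3'⟩ := hE n
    have hU' : cR ν (U * A ^ m) = cR ν U + (m : ℝ) • a := by rw [cR_mul, Pool.Agent.H41.RA.cR_pow, ha]
    obtain ⟨t, ht⟩ := htan (1 / n) (by positivity)
    rw [← ha, ← hf] at ht
    have h4 := hMI (U * A ^ m) ⟨n * t, by
      have h5 := Pool.Agent.H24.KN.cl_addN h.var hν (cl_smul hn0.le ht) (hm2 ((cR ν U - (n : ℝ) • D) - a) (by
        rw [hR']
        exact (norm_sub_le _ _).trans (add_le_add h2 le_rfl)))
      have e : (n : ℝ) • (D + (1 / (n : ℝ)) • a + t • f) + ((m : ℝ) • a + (cR ν U - (n : ℝ) • D - a)) =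
          cR ν (U * A ^ m) + ((n : ℝ) * t) • cR ν F := by
        rw [hU', smul_add, smul_add, smul_smul, mul_one_div_cancel hn0.ne', one_smul, smul_smul, ← hf]
        abel
      rw [← e]
      exact h5⟩ s (by
        have e : U * A ^ m * F ^ s = U * F ^ s * A ^ m := by rw [mul_right_comm]
        rw [e]
        exact mul_pos' h h1 hm1)
    rw [hU', ← hf] at h4
    -- the number
    have h5 : T A (U * A ^ m) F ≤ n * (C3 * ‖a‖ * ‖D‖ * ‖f‖) + C3 * ‖a‖ * (R + m * ‖a‖) * ‖f‖ := by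
      rw [← hT, hU', ← ha, ← hf]
      have e : cR ν U + (m : ℝ) • a = (n : ℝ) • D + ((cR ν U - (n : ℝ) • D) + (m : ℝ) • a) := by abel
      rw [e, map_add, LinearMap.add_apply, map_smul, LinearMap.smul_apply, smul_eq_mul]
      refine add_le_add (mul_le_mul_of_nonneg_left ((le_abs_self _).trans (h3 _ _ _)) hn0.le) ?_
      refine (le_abs_self _).trans ((h3 _ _ _).trans ?_)
      have h6 : ‖(cR ν U - (n : ℝ) • D) + (m : ℝ) • a‖ ≤ R + m * ‖a‖ := by
        refine (norm_add_le _ _).trans (add_le_add h2 ?_)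
        rw [norm_smul, Real.norm_eq_abs, abs_of_nonneg (Nat.cast_nonneg _)]
      have h7 : 0 ≤ C3 * ‖a‖ := by positivity
      exact mul_le_mul_of_nonneg_right (mul_le_mul_of_nonneg_left h6 h7) (norm_nonneg _)
    have h6 : (s : ℝ) + M * T A (U * A ^ m) F ≤ n * (C₁ + C₂) := by
      have h7 := mul_le_mul_of_nonneg_left h5 hM
      have h8 : (1 : ℝ) ≤ n := by exact_mod_cast hn
      have h9 : C₂ ≤ n * C₂ := by nlinarith
      rw [hC₂] at h9
      rw [hC₁, hC₂]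
      nlinarith
    have h7 := cl_smul (t := 1 / (n : ℝ)) (by positivity) (Pool.Agent.H24.KN.cl_addN h.var hν h4
      (cl_smul (sub_nonneg.2 h6) hF))
    refine ⟨_, h7, ?_⟩
    have e : D + (C₁ + C₂) • f - (1 / (n : ℝ)) • (cR ν U + (m : ℝ) • a + ((s : ℝ) + M * T A (U * A ^ m) F) • f +
        ((n : ℝ) * (C₁ + C₂) - ((s : ℝ) + M * T A (U * A ^ m) F)) • cR ν F) =
        -((1 / (n : ℝ)) • ((cR ν U - (n : ℝ) • D) + (m : ℝ) • a)) := by
      rw [← hf, add_assoc (cR ν U + (m : ℝ) • a), ← add_smul, add_sub_cancel, smul_add, smul_smul, ← mul_assoc,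
        one_div_mul_cancel hn0.ne', one_mul, smul_add (1 / (n : ℝ)) (cR ν U - (n : ℝ) • D), smul_sub, smul_smul (1 / (n : ℝ)) (n : ℝ),
        one_div_mul_cancel hn0.ne', one_smul, smul_add]
      abel
    rw [e, norm_neg, norm_smul, Real.norm_eq_abs, abs_of_pos (by positivity), one_div_mul_eq_div]
    refine div_le_div_of_nonneg_right ((norm_add_le _ _).trans (add_le_add h2 ?_)) hn0.le
    rw [norm_smul, Real.norm_eq_abs, abs_of_nonneg (Nat.cast_nonneg _)]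
  refine ⟨C₁ + C₂, ?_⟩
  rw [← hf, ← closure_closure (s := CC ν), Metric.mem_closure_iff]
  intro ε hε
  obtain ⟨n, hn⟩ := exists_nat_gt ((R + m * ‖a‖) / ε)
  rw [div_lt_iff₀ hε] at hn
  obtain ⟨x, hx, h4⟩ := key (n + 1) (Nat.succ_pos n)
  refine ⟨x, hx, ?_⟩
  rw [dist_eq_norm]
  refine h4.trans_lt ?_
  rw [div_lt_iff₀ (by positivity)]
  push_cast
  nlinarith

/-- **the isotropic case**: `D + K F` is nef -/
theorem n2 [CharZero k] [IsAlgClosed k] [T0Space X.P] (h : Hyp X) (hr : RR T l c) (hν : NumR ν)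
    (hT : ∀ U V W, TR (cR ν U) (cR ν V) (cR ν W) = T U V W) (d : FD ν TR A F D) (hl : 0 < l F)
    (hMI : ∃ M : ℝ, 0 ≤ M ∧ ∀ U : Cart X, (∃ t₀ : ℝ, cR ν U + t₀ • cR ν F ∈ closure (CC ν)) → ∀ s : ℤ,
      0 < h0 (U * F ^ s) 1 → cR ν U + ((s : ℝ) + M * T A U F) • cR ν F ∈ closure (CC ν))
    (hrat : ∃ (W : Cart X) (s : ℝ), ∀ v, TR (cR ν F) D v = s * TR (cR ν F) (cR ν W) v) :
    ∃ K₀ : ℝ, D + K₀ • cR ν F ∈ closure (CC ν) :=
  ee_nef h hr hν hT d.amp d.nef d.tan hMI (ee_D h hr hν hT d hl hrat)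

end Pool.Agent.H87.KN
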